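import Pool.Agent.MP_187b32_an.Spec.Energy
import Pool.Agent.MP_187b32_an.Stmt

/-!
Shared definitions of the Boltzmann project, part 2: profile, cut-off background, weights, and the
statements of the modules M1, MC, M3, M5, M6.
-/

set_option autoImplicit false

open MeasureTheory Pool.Agent.Boltz Finset
open scoped ContDiff

noncomputable section

namespace Pool.Agent.MP_187b32_an

/-- M1: the smooth imploding profile. -/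
def M1Stmt : Prop :=
  ∃ (r lam c0 : ℝ) (U : Fin 3 → E3 → ℝ) (C : E3 → ℝ) (K : ℕ → ℝ),
    11 / 10 < r ∧ r < 9 / 8 ∧ 0 < lam ∧ 0 < c0 ∧ (∀ i, ContDiff ℝ ∞ (U i)) ∧ ContDiff ℝ ∞ C ∧
    (∀ y j, (r - 1) * U j y + ∑ i, (y i + U i y) * dX i (U j) y + 5 * C y * dX j C y = 0) ∧
    (∀ y, (r - 1) * C y + ∑ i, (y i + U i y) * dX i C y + 1 / 3 * C y * ∑ i, dX i (U i) y = 0) ∧
    (∀ (w : List (Fin 3)) j y,
      |dXw w (U j) y| ≤ K w.length * (1 + ‖y‖ ^ 2) ^ ((1 - r - w.length) / 2)) ∧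
    (∀ (w : List (Fin 3)) y,
      |dXw w C y| ≤ K w.length * (1 + ‖y‖ ^ 2) ^ ((1 - r - w.length) / 2)) ∧
    (∀ y, c0 * (1 + ‖y‖ ^ 2) ^ ((1 - r) / 2) ≤ C y) ∧
    ∀ (y : E3) (ξ : Fin 3 → ℝ), lam * ∑ i, ξ i ^ 2 ≤
      (1 - 9 / 4 * √(∑ i, dX i C y ^ 2)) * ∑ i, ξ i ^ 2 + ∑ p, ∑ i, ξ p * ξ i * dX p (U i) y

/-- The closed box of half side `a`. -/
def box (a : ℝ) (x : E3) : Prop := ∀ i, |x i| ≤ a

/-- Periodic cut-off data: `pi` is the identity near the origin, `chi` a cut-off, `rho2` the squared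
distance to the lattice near the lattice. -/
structure Cut where
  pi : E3 → E3
  chi : E3 → ℝ
  rho2 : E3 → ℝ
  cd_pi : ContDiff ℝ ∞ pi
  cd_chi : ContDiff ℝ ∞ chi
  cd_rho2 : ContDiff ℝ ∞ rho2
  per_pi : Per pi
  per_chi : Per chi
  per_rho2 : Per rho2
  pi_eq : ∀ x, box (1 / 4) x → pi x = x
  rho2_eq : ∀ x, box (1 / 4) x → rho2 x = ‖x‖ ^ 2
  chi_one : ∀ x, box (1 / 8) x → chi x = 1
  chi_zero : ∀ x, box (1 / 2) x → ¬box (1 / 5) x → chi x = 0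
  chi_nonneg : ∀ x, 0 ≤ chi x
  chi_le : ∀ x, chi x ≤ 1
  rho2_ge : ∀ x, box (1 / 2) x → ‖x‖ ^ 2 / 12 ≤ rho2 x
  rho2_le : ∀ x, rho2 x ≤ 3

/-- Time derivative of a scalar field. -/
def dS (a : ℝ → E3 → ℝ) (s : ℝ) (x : E3) : ℝ := deriv (fun t => a t x) s

/-- Background: the physical velocity `u` and thermal speed `C` as functions of `(s, x)`,
where `dt/ds = exp (-r s)`. -/
structure BgD where
  r : ℝ
  nu : ℝ
  cut : Cut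
  u : Fin 3 → ℝ → E3 → ℝ
  C : ℝ → E3 → ℝ

namespace BgD

variable (B : BgD)

/-- Growth rate of the collision frequency. -/
def kap : ℝ := 10 * B.r - 11

/-- The length scale. -/
def Lam (s : ℝ) (x : E3) : ℝ := √(Real.exp (-2 * s) + B.cut.rho2 x)

/-- The rate. -/
def mu (s : ℝ) (x : E3) : ℝ := Real.exp (-B.r * s) * B.Lam s x ^ (-B.r)

/-- The weights of the two energies (`a = 0` and `a = 1/4`). -/
def om (a s : ℝ) (x : E3) : ℝ := Real.exp (-2 * a * s) * B.Lam s x ^ (-3 - 2 * a)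

/-- The length scale attached to a derivative. -/
def sig (s : ℝ) (x : E3) : ℝ :=
  Real.exp (-s) + √(Real.exp (-2 * s) + B.nu ^ 2 * B.cut.rho2 x)

/-- The collision frequency divided by the amplitude `A`. -/
def k1 (s : ℝ) (x : E3) : ℝ := Real.exp (-B.r * s) * B.C s x ^ 11

/-- Material derivative. -/
def mat (a : ℝ → E3 → ℝ) (s : ℝ) (x : E3) : ℝ :=
  dS a s x + ∑ i, Real.exp (-B.r * s) * B.u i s x * dX i (a s) x

/-- The coefficients of the transport operator. -/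
def fld (s : ℝ) : Fld where
  u i x := Real.exp (-B.r * s) * B.u i s x
  c x := Real.exp (-B.r * s) * B.C s x
  b0 j x := -B.mat (B.u j) s x / B.C s x
  b1 i j x := -(Real.exp (-B.r * s) * dX i (B.u j s) x)
    - if i = j then B.mat B.C s x / B.C s x else 0
  b2 i x := -(Real.exp (-B.r * s) * dX i (B.C s) x)

/-- Rescaled and periodised copy of a function of `y`. -/
def per (φ : E3 → SV) (s : ℝ) (x : E3) : SV := B.cut.chi x • φ (Real.exp s • B.cut.pi x)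

/-- The energy with weight `om a`. -/
def E (n : ℕ) (θ a s : ℝ) (G H : E3 → SV) : ℝ := En n θ (B.om a s) (B.sig s) G H

/-- Everything that the other modules may use about the background. -/
structure Ok : Prop where
  r_gt : 11 / 10 < B.r
  r_lt : B.r < 9 / 8
  nu_pos : 0 < B.nu
  nu_le : B.nu ≤ 1
  cd_u : ∀ i, ContDiff ℝ ∞ fun p : ℝ × E3 => B.u i p.1 p.2
  cd_C : ContDiff ℝ ∞ fun p : ℝ × E3 => B.C p.1 p.2
  per_u : ∀ i s, Per (B.u i s)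
  per_C : ∀ s, Per (B.C s)
  C_pos : ∀ s x, 0 < B.C s x
  sm_u : ∀ i, SmD (B.u i) (dS (B.u i))
  sm_C : SmD B.C (dS B.C)
  sm_om : ∀ a, SmD (B.om a) (dS (B.om a))
  sm_sig : SmD B.sig (dS B.sig)
  sm_mu : SmC B.mu
  sm_k1 : SmC B.k1
  fldC : FldC B.fld
  C_ge : ∃ c0 : ℝ, 0 < c0 ∧ ∀ s, 0 ≤ s → ∀ x, c0 * B.Lam s x ^ (1 - B.r) ≤ B.C s x
  sym : ∃ K : ℕ → ℝ, ∀ s, 0 ≤ s →
    (∀ i, SymBd K 0 (B.sig s) (fun x => B.Lam s x ^ (1 - B.r)) (B.u i s)) ∧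
    SymBd K 0 (B.sig s) (fun x => B.Lam s x ^ (1 - B.r)) (B.C s) ∧
    (∀ i, SymBd K 0 (B.sig s) (fun x => B.mu s x * B.Lam s x ^ (1 - B.r)) (dS (B.u i) s)) ∧
    SymBd K 0 (B.sig s) (fun x => B.mu s x * B.Lam s x ^ (1 - B.r)) (dS B.C s)
  hyp : ∃ (K : ℕ → ℝ) (lam s1 : ℝ), 0 < lam ∧ 0 ≤ s1 ∧ ∀ s, s1 ≤ s →
    (B.fld s).Bd K (B.sig s) (B.mu s) ∧ SymBd K 0 (B.sig s) (B.k1 s) (B.k1 s) ∧
    ∀ a, 0 ≤ a → a ≤ 1 / 4 → WtBd (B.fld s) K lam (B.om a s) (B.sig s) (B.mu s)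
      (dS (B.om a) s) (dS B.sig s) fun x => 2 * a * B.om a s x
  euler_u : ∀ j s x, box (1 / 10) x →
    B.mat (B.u j) s x + 5 * (Real.exp (-B.r * s) * B.C s x) * dX j (B.C s) x = 0
  euler_C : ∀ s x, box (1 / 10) x →
    B.mat B.C s x + 1 / 3 * B.C s x * ∑ i, Real.exp (-B.r * s) * dX i (B.u i s) x = 0
  scal : ∃ (U : Fin 3 → E3 → ℝ) (C : E3 → ℝ), (∀ i, ContDiff ℝ ∞ (U i)) ∧ ContDiff ℝ ∞ C ∧
    ∀ s x, box (1 / 8) x → (∀ i, B.u i s x = Real.exp ((B.r - 1) * s) * U i (Real.exp s • x)) ∧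
      B.C s x = Real.exp ((B.r - 1) * s) * C (Real.exp s • x)

end BgD

/-- MC1: the background exists. -/
def BgStmt : Prop := M1Stmt → ∃ B : BgD, B.Ok

/-- MC2: corrector `gc` and remaining error `R`. -/
def CorrStmt : Prop :=
  ∀ (B : BgD), B.Ok → ∀ Q : CollOp, ∃ gc gc' R : ℝ → E3 → SV, SmD gc gc' ∧ SmC R ∧
    (∀ s, Per (gc s)) ∧ (∀ s, Per (gc' s)) ∧ (∀ s, Per (R s)) ∧
    (∀ s x, (B.fld s).src x = B.k1 s x • Q.L (gc s x) + R s x) ∧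
    ∀ n, ∃ C : ℝ, 0 < C ∧ ∀ s, 0 ≤ s →
      B.E n 1 0 s (gc s) (gc s) ≤ C ∧
      B.E n 1 (1 / 4) s (gc s) (gc s) ≤ C * Real.exp (-2 * B.kap * s) ∧
      ∀ a, a = 0 ∨ a = 1 / 4 →
        B.E n 1 a s (fun x => gc' s x + (B.fld s).tr (gc s) x)
          (fun x => gc' s x + (B.fld s).tr (gc s) x) ≤ C * Real.exp (-2 * B.kap * s) ∧
        B.E n 1 a s (R s) (R s) ≤ C * Real.exp (-2 * (B.r + a) * s)

/-- Compactly supported smooth hydrodynamic functions of `y`. -/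
def InD (φ : E3 → SV) : Prop := Sm φ ∧ HasCompactSupport φ ∧ ∀ y, PP (φ y) = φ y

/-- MK: the finite rank damping. -/
def KStmt : Prop :=
  ∀ (B : BgD), B.Ok → ∀ (n : ℕ) (θ C1 ε : ℝ), 4 ≤ n → 0 < θ → θ ≤ 1 → 0 < ε →
    ∃ (m : ℕ) (φ : Fin m → E3 → SV) (C0 C s1 : ℝ), 0 < C0 ∧ 0 < C ∧ (∀ i, InD (φ i)) ∧
      ∀ s, s1 ≤ s → (∀ i, B.E n θ (1 / 4) s (B.per (φ i) s) (B.per (φ i) s) ≤ C) ∧
        ∀ G : E3 → SV, Sm G → Per G →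
          (∀ i, B.E n θ 0 s (B.per (φ i) s) G ^ 2 ≤ C * B.E n θ (1 / 4) s G G) ∧
          C1 * tint (fun x => B.mu s x * B.om (1 / 4) s x * ip (PP (G x)) (PP (G x)))
            ≤ ε * B.E n θ (1 / 4) s G G + C0 * ∑ i, B.E n θ (1 / 4) s (B.per (φ i) s) G ^ 2

/-- M3, kinetic solver with the finite rank term written with the energy form. -/
def M3kStmt : Prop :=
  ∀ (Q : CollOp) (F : ℝ → Fld) (k wt σ : ℝ → E3 → ℝ) (n m : ℕ) (θ C0 s0 : ℝ)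
    (φ : Fin m → ℝ → E3 → SV) (S : ℝ → E3 → SV) (g0 : E3 → SV),
    FldC F → SmC k → (∀ s, Per (k s)) → (∀ s x, 0 < k s x) → SmC wt → (∀ s, Per (wt s)) →
    SmC σ → (∀ s, Per (σ s)) → (∀ i, SmC (φ i)) → (∀ i s, Per (φ i s)) →
    SmC S → (∀ s, Per (S s)) → Sm g0 → Per g0 →
    ∃ g g' : ℝ → E3 → SV, SmD g g' ∧ (∀ s, Per (g s)) ∧ (∀ s, Per (g' s)) ∧ g s0 = g0 ∧
      ∀ s, s0 ≤ s → ∀ x, g' s x + (F s).tr (g s) x + k s x • Q.L (g s x)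
        + ∑ i, (C0 * En n θ (wt s) (σ s) (φ i s) (g s)) • φ i s x = S s x

/-- M3, hydrodynamic solver. -/
def M3hStmt : Prop :=
  ∀ (F : ℝ → Fld) (s0 : ℝ) (S : ℝ → E3 → SV) (W0 : E3 → SV),
    FldC F → SmC S → (∀ s, Per (S s)) → (∀ s x, PP (S s x) = S s x) →
    Sm W0 → Per W0 → (∀ x, PP (W0 x) = W0 x) →
    ∃ W W' : ℝ → E3 → SV, SmD W W' ∧ (∀ s, Per (W s)) ∧ (∀ s, Per (W' s)) ∧
      (∀ s x, PP (W s x) = W s x) ∧ W s0 = W0 ∧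
      ∀ s, s0 ≤ s → ∀ x, W' s x + PP ((F s).tr (W s) x) = S s x

/-- M5: choice of the finitely many free parameters for the linearised Euler system. -/
def M5Stmt : Prop :=
  ∀ (B : BgD), B.Ok → ∃ n0 : ℕ, ∀ n, n0 ≤ n → ∀ θ : ℝ, 0 < θ → θ ≤ 1 →
    ∀ (m : ℕ) (φ : Fin m → E3 → SV), (∀ i, InD (φ i)) → ∀ δ1 : ℝ, 0 < δ1 → δ1 < 1 / 4 →
    ∃ δ0, δ0 < δ1 ∧ ∀ δ, δ0 < δ → δ < δ1 →
      ∃ (m' : ℕ) (ψ : Fin m' → E3 → SV) (C s2 : ℝ), 0 < C ∧ (∀ i, InD (ψ i)) ∧ ∀ s0, s2 ≤ s0 →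
        ∃ aa : C(ℝ, Fin m → ℝ) →ₗ[ℝ] (Fin m' → ℝ), ∀ (c : C(ℝ, Fin m → ℝ)) (M : ℝ), 0 ≤ M →
          (∀ s, s0 ≤ s → ∀ i, |c s i| ≤ M * Real.exp (-δ * s)) → (∀ i, |aa c i| ≤ C * M) ∧
          ∀ W W' : ℝ → E3 → SV, SmD W W' → (∀ s, Per (W s)) → (∀ s x, PP (W s x) = W s x) →
            (∀ x, W s0 x = ∑ i, aa c i • B.per (ψ i) s0 x) →
            (∀ s, s0 ≤ s → ∀ x,
              W' s x + PP ((B.fld s).tr (W s) x) = ∑ i, c s i • B.per (φ i) s x) →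
            ∀ s, s0 ≤ s → B.E n θ (1 / 4) s (W s) (W s) ≤ C * M ^ 2 * Real.exp (-2 * δ * s) ∧
              B.E n θ 0 s (W s) (W s) ≤ C * M ^ 2

/-- Velocity cut-off of the collision invariants. -/
def VCutStmt : Prop :=
  ∀ (n : ℕ) (ε : ℝ), 0 < ε → ∃ (et : Fin 5 → SV) (C : ℝ), 0 < C ∧
    (∀ a, nA n (eH a - et a) ≤ ε) ∧ ∀ a V, |et a V| ≤ C * sqM V

/-- The polynomial `b_j(V)`. -/
def Fld.bj (F : Fld) (x V : E3) (j : Fin 3) : ℝ :=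
  F.b0 j x + ∑ i, F.b1 i j x * V i + ∑ i, F.b2 i x * V i * V j

/-- A classical solution `G = sqM + g` of the rescaled equation on `[s0, ∞)`. -/
structure Lim (F : ℝ → Fld) (k : ℝ → E3 → ℝ) (s0 ε : ℝ) (p : ℕ) (g : ℝ → E3 → E3 → ℝ) : Prop where
  c1 : ContDiff ℝ 1 fun q : ℝ × E3 × E3 => g q.1 q.2.1 q.2.2
  per : ∀ s V, Per fun x => g s x V
  nice : ∀ s, s0 ≤ s → ∀ x, Coll.Nice p ε (g s x)
  dec : ∀ s1, ∃ K, ∀ s ∈ Set.Icc s0 s1, ∀ x V : E3, (1 + ‖V‖) ^ p *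
    ‖fderiv ℝ (fun q : ℝ × E3 × E3 => g q.1 q.2.1 q.2.2) (s, x, V)‖ ≤ K
  eqn : ∀ s, s0 ≤ s → ∀ x V : E3,
    deriv (fun t => g t x V) s
      + ∑ i, ((F s).u i x + (F s).c x * V i) * fderiv ℝ (fun y => g s y V) x (ev i)
      - ∑ j, (F s).bj x V j * (V j / 2 * (sqM V + g s x V)
          - fderiv ℝ (fun W => sqM W + g s x W) V (ev j))
      = k s x * Coll.Gam (fun W => sqM W + g s x W) (fun W => sqM W + g s x W) V
  init_smooth : ContDiff ℝ ∞ fun q : E3 × E3 => g s0 q.1 q.2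
  init_small : ∀ x V, |g s0 x V| ≤ 1 / 2 * sqM V

/-- M6c: the fixed point. -/
def PicardStmt : Prop :=
  ∀ (B : BgD), B.Ok → ∀ (p : ℕ) (ε : ℝ), 0 < ε → ∃ (A s0 : ℝ) (g : ℝ → E3 → E3 → ℝ),
    0 < A ∧ 0 ≤ s0 ∧ Lim B.fld (fun s x => A * B.k1 s x) s0 ε p g

/-- M6b: positivity. -/
def PosStmt : Prop :=
  ∃ (ε0 : ℝ) (p : ℕ), 0 < ε0 ∧ ∀ (F : ℝ → Fld) (k : ℝ → E3 → ℝ) (s0 : ℝ) (g : ℝ → E3 → E3 → ℝ),
    FldC F → SmC k → (∀ s, Per (k s)) → (∀ s x, 0 < k s x) → Lim F k s0 ε0 p g →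
    ∀ s, s0 ≤ s → ∀ x V, 0 ≤ sqM V + g s x V

/-- M6a: back to the physical variables. -/
def FinalStmt : Prop :=
  ∃ (ε1 : ℝ) (p : ℕ), 0 < ε1 ∧ ∀ (B : BgD), B.Ok → ∀ (A s0 : ℝ) (g : ℝ → E3 → E3 → ℝ),
    0 < A → 0 ≤ s0 → Lim B.fld (fun s x => A * B.k1 s x) s0 ε1 p g →
    (∀ s, s0 ≤ s → ∀ x V, 0 ≤ sqM V + g s x V) → Stmt.Main

lemma Lim.mono {F : ℝ → Fld} {k : ℝ → E3 → ℝ} {s0 ε ε' : ℝ} {p p' : ℕ} {g : ℝ → E3 → E3 → ℝ}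
    (h : Lim F k s0 ε p g) (hε : ε ≤ ε') (hp : p' ≤ p) : Lim F k s0 ε' p' g := by
  have hw : ∀ V : E3, (1 + ‖V‖) ^ p' ≤ (1 + ‖V‖) ^ p := fun V =>
    pow_le_pow_right₀ (by linarith [norm_nonneg V]) hp
  refine ⟨h.c1, h.per, fun s hs x => ⟨fun v => ?_, fun v z hz => ?_⟩, fun s1 => ?_, h.eqn,
    h.init_smooth, h.init_small⟩
  · exact (mul_le_mul_of_nonneg_right (hw v) (abs_nonneg _)).trans (((h.nice s hs x).1 v).trans hε)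
  · exact (mul_le_mul_of_nonneg_right (hw v) (abs_nonneg _)).trans
      (((h.nice s hs x).2 v z hz).trans (mul_le_mul_of_nonneg_right hε (norm_nonneg _)))
  · obtain ⟨K, hK⟩ := h.dec s1
    exact ⟨K, fun s hs x V =>
      (mul_le_mul_of_nonneg_right (hw V) (norm_nonneg _)).trans (hK s hs x V)⟩

/-- Assembly of the last four modules. -/
theorem main_of (h1 : M1Stmt) (h2 : BgStmt) (h3 : PicardStmt) (h4 : PosStmt) (h5 : FinalStmt) :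
    Stmt.Main := by
  obtain ⟨B, hB⟩ := h2 h1
  obtain ⟨ε0, p0, hε0, h4⟩ := h4
  obtain ⟨ε1, p1, hε1, h5⟩ := h5
  obtain ⟨A, s0, g, hA, hs0, hg⟩ := h3 B hB (max p0 p1) (min ε0 ε1) (lt_min hε0 hε1)
  have hC := hB.C_pos
  refine h5 B hB A s0 g hA hs0 (hg.mono (min_le_right _ _) (le_max_right _ _))
    (h4 B.fld _ s0 g hB.fldC (hB.sm_k1.const_smul A) (fun s i x => ?_) (fun s x => ?_)
      (hg.mono (min_le_left _ _) (le_max_left _ _)))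
  · simp only [BgD.k1, hB.per_C s i x]
  · have := hC s x
    unfold BgD.k1
    positivity

end Pool.Agent.MP_187b32_an
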